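import Pool.Agent.helper82.T6.SpecW

set_option autoImplicit false

namespace Pool.Agent.T6

open Finset Pool.Agent.helper3.FT Pool.Agent.T5

theorem WNU_core (κ k a b m h E F es T L L' N₁ K₁ : ℝ) (hκ : 0 < κ) (hk : κ * k = 1) (hk1 : 1 ≤ k)
    (ha : 0 < a) (hb : 1 ≤ b)
    (hm : 0 < m) (hh : 0 < h) (hE : 0 < E) (hes : 0 < es)
    (rel : a ^ 3 * b = h * m) (hF : F * es = E ^ 2) (T1 : T ≤ 81 / 16 * h ^ 2 * F)
    (L1 : 6 * (k * m) ≤ E * L) (L2 : E * L ≤ 8 * (k * m)) (L1' : 8 * (b ^ 4 * m) ≤ E * L')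
    (L2' : E * L' ≤ 10 * (b ^ 4 * m)) (n1 : κ ^ 2 * a ≤ N₁) (n2 : N₁ ≤ 6 * a)
    (k1 : κ ^ 2 * (b ^ 2 * a) ≤ K₁) (k2 : K₁ ≤ 6 * (b ^ 2 * a)) :
    32 * (T * es) * L' / N₁ ^ 3 ≤ 1620 * k ^ 6 * (h * E * b ^ 5) ∧
    K₁ ^ 3 / L ≤ 36 * (h * E * b ^ 5) ∧
    32 * (T * es) * L / N₁ ^ 3 ≤ 1296 * k ^ 7 * (h * E * b) ∧
    2 * N₁ ^ 2 * K₁ / L ≤ 72 * (h * E * b) ∧
    K₁ ^ 3 / L' ≤ 27 * (h * E * b) ∧
    4 * N₁ / K₁ ≤ 24 * k ^ 2 / b ^ 2 ∧
    5 * N₁ ^ 3 / L ≤ 180 * (h * E / b) ∧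
    N₁ ^ 3 / L' ≤ 27 * (h * E / b ^ 5) := by
  have hb0 : 0 < b := by linarith
  have hN : 0 < N₁ := lt_of_lt_of_le (by positivity) n1
  have hK : 0 < K₁ := lt_of_lt_of_le (by positivity) k1
  have hk0 : 0 < k := by linarith
  have hL : 0 < L := by
    have h1 : 0 < E * L := lt_of_lt_of_le (by positivity) L1
    exact (mul_pos_iff_of_pos_left hE).mp h1
  have hL' : 0 < L' := by
    have h1 : 0 < E * L' := lt_of_lt_of_le (by positivity) L1'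
    exact (mul_pos_iff_of_pos_left hE).mp h1
  have hTe : T * es ≤ 81 / 16 * h ^ 2 * E ^ 2 := by
    calc T * es ≤ (81 / 16 * h ^ 2 * F) * es := mul_le_mul_of_nonneg_right T1 hes.le
      _ = 81 / 16 * h ^ 2 * (F * es) := by ring
      _ = _ := by rw [hF]
  have hN3 : (κ ^ 2 * a) ^ 3 ≤ N₁ ^ 3 := pow_le_pow_left₀ (by positivity) n1 3
  have hN3' : N₁ ^ 3 ≤ (6 * a) ^ 3 := pow_le_pow_left₀ hN.le n2 3
  have hN2' : N₁ ^ 2 ≤ (6 * a) ^ 2 := pow_le_pow_left₀ hN.le n2 2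
  have hK3' : K₁ ^ 3 ≤ (6 * (b ^ 2 * a)) ^ 3 := pow_le_pow_left₀ hK.le k2 3
  have hkk : ∀ j : ℕ, k ^ j * κ ^ j = 1 := by
    intro j
    rw [← mul_pow, mul_comm k κ, hk, one_pow]
  have L1a : 6 * m ≤ E * L := by
    refine le_trans ?_ L1
    nlinarith [mul_nonneg (sub_nonneg.mpr hk1) hm.le]
  refine ⟨?_, ?_, ?_, ?_, ?_, ?_, ?_, ?_⟩
  · rw [div_le_iff₀ (pow_pos hN 3)]
    calc 32 * (T * es) * L' ≤ 32 * (81 / 16 * h ^ 2 * E ^ 2) * L' := by
          refine mul_le_mul_of_nonneg_right ?_ hL'.le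
          linarith
      _ = 162 * h ^ 2 * E * (E * L') := by ring
      _ ≤ 162 * h ^ 2 * E * (10 * (b ^ 4 * m)) := mul_le_mul_of_nonneg_left L2' (by positivity)
      _ = 1620 * h * E * b ^ 4 * (h * m) := by ring
      _ = 1620 * h * E * b ^ 4 * (a ^ 3 * b) := by rw [rel]
      _ = 1620 * (k ^ 6 * κ ^ 6) * h * E * b ^ 4 * (a ^ 3 * b) := by rw [hkk 6]; ring
      _ = 1620 * k ^ 6 * (h * E * b ^ 5) * (κ ^ 2 * a) ^ 3 := by ring
      _ ≤ _ := mul_le_mul_of_nonneg_left hN3 (by positivity)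
  · rw [div_le_iff₀ hL]
    calc K₁ ^ 3 ≤ (6 * (b ^ 2 * a)) ^ 3 := hK3'
      _ = 216 * b ^ 5 * (a ^ 3 * b) := by ring
      _ = 36 * (h * b ^ 5) * (6 * m) := by rw [rel]; ring
      _ ≤ 36 * (h * b ^ 5) * (E * L) := mul_le_mul_of_nonneg_left L1a (by positivity)
      _ = _ := by ring
  · rw [div_le_iff₀ (pow_pos hN 3)]
    calc 32 * (T * es) * L ≤ 32 * (81 / 16 * h ^ 2 * E ^ 2) * L := by
          refine mul_le_mul_of_nonneg_right ?_ hL.le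
          linarith
      _ = 162 * h ^ 2 * E * (E * L) := by ring
      _ ≤ 162 * h ^ 2 * E * (8 * (k * m)) := mul_le_mul_of_nonneg_left L2 (by positivity)
      _ = 1296 * h * E * k * (h * m) := by ring
      _ = 1296 * h * E * k * (a ^ 3 * b) := by rw [rel]
      _ = 1296 * (k ^ 6 * κ ^ 6) * h * E * k * (a ^ 3 * b) := by rw [hkk 6]; ring
      _ = 1296 * k ^ 7 * (h * E * b) * (κ ^ 2 * a) ^ 3 := by ring
      _ ≤ _ := mul_le_mul_of_nonneg_left hN3 (by positivity)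
  · rw [div_le_iff₀ hL]
    calc 2 * N₁ ^ 2 * K₁ ≤ 2 * (6 * a) ^ 2 * (6 * (b ^ 2 * a)) := by
          refine mul_le_mul ?_ k2 hK.le (by positivity)
          linarith
      _ = 432 * b * (a ^ 3 * b) := by ring
      _ = 72 * (h * b) * (6 * m) := by rw [rel]; ring
      _ ≤ 72 * (h * b) * (E * L) := mul_le_mul_of_nonneg_left L1a (by positivity)
      _ = _ := by ring
  · rw [div_le_iff₀ hL']
    calc K₁ ^ 3 ≤ (6 * (b ^ 2 * a)) ^ 3 := hK3'
      _ = 216 * b ^ 5 * (a ^ 3 * b) := by ring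
      _ = 27 * (h * b) * (8 * (b ^ 4 * m)) := by rw [rel]; ring
      _ ≤ 27 * (h * b) * (E * L') := mul_le_mul_of_nonneg_left L1' (by positivity)
      _ = _ := by ring
  · rw [div_le_div_iff₀ hK (by positivity)]
    calc 4 * N₁ * b ^ 2 ≤ 4 * (6 * a) * b ^ 2 := by
          refine mul_le_mul_of_nonneg_right ?_ (by positivity)
          linarith
      _ = 24 * (k ^ 2 * κ ^ 2) * (b ^ 2 * a) := by rw [hkk 2]; ring
      _ = 24 * k ^ 2 * (κ ^ 2 * (b ^ 2 * a)) := by ring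
      _ ≤ _ := mul_le_mul_of_nonneg_left k1 (by positivity)
  · rw [div_le_iff₀ hL]
    calc 5 * N₁ ^ 3 ≤ 5 * (6 * a) ^ 3 := by linarith
      _ = 1080 * (a ^ 3 * b) / b := by field_simp; ring
      _ = 180 * (h / b) * (6 * m) := by rw [rel]; ring
      _ ≤ 180 * (h / b) * (E * L) := mul_le_mul_of_nonneg_left L1a (by positivity)
      _ = _ := by ring
  · rw [div_le_iff₀ hL']
    calc N₁ ^ 3 ≤ (6 * a) ^ 3 := hN3'
      _ = 216 * (a ^ 3 * b) / b := by field_simp; ring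
      _ = 27 * (h / b ^ 5) * (8 * (b ^ 4 * m)) := by rw [rel]; field_simp; ring
      _ ≤ 27 * (h / b ^ 5) * (E * L') := mul_le_mul_of_nonneg_left L1' (by positivity)
      _ = _ := by ring

/-- the real numbers `R = N^(1/40)` -/
theorem WNU_R (N M : ℝ) (hM : 1 ≤ M) (hN : M ^ 20 ≤ N) : ∃ R : ℝ, 1 ≤ R ∧ R ^ 40 = N ∧ M ≤ R ^ 2 ∧ R = N ^ (1 / 40 : ℝ) := by
  have h0 : (1 : ℝ) ≤ N := le_trans (one_le_pow₀ hM) hN
  refine ⟨N ^ (1 / 40 : ℝ), ?_, ?_, ?_, rfl⟩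
  · exact Real.one_le_rpow h0 (by norm_num)
  · rw [← Real.rpow_natCast, ← Real.rpow_mul (by linarith)]
    norm_num
  · have h1 : (N ^ (1 / 40 : ℝ)) ^ 2 = N ^ (1 / 20 : ℝ) := by
      rw [← Real.rpow_natCast, ← Real.rpow_mul (by linarith)]
      norm_num
    rw [h1]
    have h2 : (M ^ 20) ^ (1 / 20 : ℝ) = M := by
      rw [← Real.rpow_natCast, ← Real.rpow_mul (by linarith)]
      norm_num
    rw [← h2]
    exact Real.rpow_le_rpow (by positivity) hN (by norm_num)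

/-- the final sizes, with the numbers `p = √Y`, `a = sN`, `m = p a`, `h = a² b / p` -/
theorem WNU_fin (κ k A R p a b : ℝ) (hκ : 0 < κ) (hk : κ * k = 1) (hk1 : 1 ≤ k) (hA : 1 ≤ A)
    (hR : 1 ≤ R) (hR2 : 1000 * k ^ 8 ≤ R ^ 2) (hp : 0 < p) (ha : 0 < a) (hb : 1 ≤ b)
    (hp1 : R ^ 19 ≤ p ^ 2) (hap : 1 ≤ R ^ 3 * (a / p) ^ 2) (d er es y : ℕ) (hd : 1 ≤ d) (hdR : (d : ℝ) ≤ R)
    (her : 1 ≤ er) (hes : 1 ≤ es) (hy : 1 ≤ y) (hle : er ^ 2 * es * y ≤ d ^ 2)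
    (hapA : (a / p) ^ 2 * d ^ 2 ≤ A) (N₁ K₁ : ℕ) (n1 : κ ^ 2 * a ≤ N₁) (n2 : (N₁ : ℝ) ≤ 6 * a)
    (k1 : κ ^ 2 * (b ^ 2 * a) ≤ K₁) (k2 : (K₁ : ℝ) ≤ 6 * (b ^ 2 * a)) :
    1 ≤ κ ^ 2 * a ∧ ∃ (L L' T : ℕ) (ρ : ℝ), WB (10 ^ 12 * A * k ^ 26) N₁ K₁ L L' T er es y b ρ ∧ R ^ 10 ≤ T ∧
      32 * T * p ^ 2 ≤ (N₁ : ℝ) ^ 3 * K₁ * es * (er : ℝ) ^ 2 / 8 ∧
      6 / κ * (p * a) + er * es ≤ er * es * (L : ℝ) ∧
      8 * (b ^ 4 * (p * a)) + er * es ≤ er * es * (L' : ℝ) ∧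
      (N₁ : ℝ) * K₁ * (L * L' / T) ≤ (10 ^ 12 * A * k ^ 26) * (b ^ 4 * p ^ 4 / ((er : ℝ) ^ 4 * (es : ℝ) ^ 3)) ∧
      (N₁ : ℝ) * K₁ * √(L * L' : ℝ) ≤ (10 ^ 12 * A * k ^ 26) * (b ^ 4 * p ^ 4 * (a / p) ^ 3 / (er * es)) := by
  have hk0 : 0 < k := by linarith
  have hb0 : 0 < b := by linarith
  have hR0 : 0 < R := by linarith
  have hkk : ∀ j : ℕ, k ^ j * κ ^ j = 1 := by
    intro j
    rw [← mul_pow, mul_comm k κ, hk, one_pow]
  have hkp : ∀ i : ℕ, 1 ≤ k ^ i := fun i => one_le_pow₀ hk1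
  have herR : (1 : ℝ) ≤ er := by exact_mod_cast her
  have hesR : (1 : ℝ) ≤ es := by exact_mod_cast hes
  have hyR : (1 : ℝ) ≤ y := by exact_mod_cast hy
  have hdR1 : (1 : ℝ) ≤ d := by exact_mod_cast hd
  have hleR : (er : ℝ) ^ 2 * es * y ≤ (d : ℝ) ^ 2 := by exact_mod_cast hle
  -- the basic sizes
  set c := a / p with hc
  have hc0 : 0 < c := by positivity
  have hac : a = c * p := by rw [hc]; field_simp
  have hR3c : 1 ≤ R ^ 3 * c ^ 2 := hap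
  have ha2 : R ^ 16 ≤ a ^ 2 := by
    have h1 : R ^ 19 * 1 ≤ p ^ 2 * (R ^ 3 * c ^ 2) := mul_le_mul hp1 hR3c (by norm_num) (by positivity)
    have h2 : R ^ 3 * R ^ 16 ≤ R ^ 3 * a ^ 2 := by
      rw [hac]
      calc R ^ 3 * R ^ 16 = R ^ 19 * 1 := by ring
        _ ≤ _ := h1
        _ = _ := by ring
    exact le_of_mul_le_mul_left h2 (by positivity)
  have ha8 : R ^ 8 ≤ a := by
    have h1 : (R ^ 8) ^ 2 ≤ a ^ 2 := by
      calc (R ^ 8) ^ 2 = R ^ 16 := by ring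
        _ ≤ _ := ha2
    exact (pow_le_pow_iff_left₀ (by positivity) ha.le (by norm_num)).mp h1
  have hk8 : k ^ 8 ≤ R ^ 2 := by nlinarith [hkp 8]
  have hR28 : R ^ 2 ≤ R ^ 8 := pow_le_pow_right₀ hR (by norm_num)
  have hk2a : k ^ 2 ≤ a := le_trans (pow_le_pow_right₀ hk1 (by norm_num)) (le_trans hk8 (le_trans hR28 ha8))
  have hfirst : 1 ≤ κ ^ 2 * a := by
    calc (1 : ℝ) = κ ^ 2 * k ^ 2 := by rw [← mul_pow, hk, one_pow]
      _ ≤ κ ^ 2 * a := mul_le_mul_of_nonneg_left hk2a (by positivity)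
  refine ⟨hfirst, ?_⟩
  -- m, h, E, F
  set m := p * a with hm
  have hm0 : 0 < m := by positivity
  set h := a ^ 2 * b / p with hh
  have hh0 : 0 < h := by positivity
  set E : ℝ := (er : ℝ) * es with hE
  have hE0 : 0 < E := by positivity
  have hE1 : 1 ≤ E := one_le_mul_of_one_le_of_one_le herR hesR
  set F : ℝ := (es : ℝ) * (er : ℝ) ^ 2 with hF
  have hF1 : 1 ≤ F := one_le_mul_of_one_le_of_one_le hesR (one_le_pow₀ herR)
  have hFE : F * es = E ^ 2 := by rw [hF, hE]; ring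
  have rel : a ^ 3 * b = h * m := by rw [hh, hm]; field_simp
  have hh2 : h ^ 2 * p ^ 2 = a ^ 4 * b ^ 2 := by rw [hh]; field_simp
  have hEd : E ≤ R ^ 2 := by
    calc E = (er : ℝ) * es * 1 := by rw [hE]; ring
      _ ≤ (er : ℝ) ^ 2 * es * y := by
          refine mul_le_mul ?_ hyR (by norm_num) (by positivity)
          refine mul_le_mul_of_nonneg_right ?_ (by positivity)
          nlinarith
      _ ≤ (d : ℝ) ^ 2 := hleR
      _ ≤ R ^ 2 := pow_le_pow_left₀ (by linarith) hdR 2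
  have hpR : R ^ 9 ≤ p := by
    have h1 : (R ^ 9) ^ 2 ≤ p ^ 2 := by
      calc (R ^ 9) ^ 2 = R ^ 18 := by ring
        _ ≤ R ^ 19 := pow_le_pow_right₀ hR (by norm_num)
        _ ≤ _ := hp1
    exact (pow_le_pow_iff_left₀ (by positivity) hp.le (by norm_num)).mp h1
  have hmE : E ≤ m := by
    calc E ≤ R ^ 2 := hEd
      _ ≤ R ^ 17 := pow_le_pow_right₀ hR (by norm_num)
      _ = R ^ 9 * R ^ 8 := by ring
      _ ≤ p * a := mul_le_mul hpR ha8 (by positivity) hp.le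
  have hh13 : R ^ 13 ≤ h ^ 2 := by
    have h1 : h ^ 2 = c ^ 4 * p ^ 2 * b ^ 2 := by
      rw [hh, hac]; field_simp
    have h2 : 1 ≤ R ^ 6 * c ^ 4 := by
      calc (1 : ℝ) ≤ (R ^ 3 * c ^ 2) ^ 2 := one_le_pow₀ hR3c
        _ = _ := by ring
    have h3 : R ^ 6 * R ^ 13 ≤ R ^ 6 * h ^ 2 := by
      calc R ^ 6 * R ^ 13 = R ^ 19 * 1 * 1 := by ring
        _ ≤ p ^ 2 * (R ^ 6 * c ^ 4) * b ^ 2 := by
            refine mul_le_mul (mul_le_mul hp1 h2 (by norm_num) (by positivity)) (one_le_pow₀ hb) (by norm_num) (by positivity)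
        _ = R ^ 6 * h ^ 2 := by rw [h1]; ring
    exact le_of_mul_le_mul_left h3 (by positivity)
  -- the number X and T
  have hN0 : (0 : ℝ) < N₁ := lt_of_lt_of_le (by positivity) n1
  have hK0 : (0 : ℝ) < K₁ := lt_of_lt_of_le (by positivity) k1
  set X : ℝ := (N₁ : ℝ) ^ 3 * K₁ * es * (er : ℝ) ^ 2 / (256 * p ^ 2) with hX
  have hX1 : κ ^ 8 * h ^ 2 * F / 256 ≤ X := by
    rw [hX, div_le_div_iff₀ (by norm_num) (by positivity)]
    calc κ ^ 8 * h ^ 2 * F * (256 * p ^ 2) = 256 * κ ^ 8 * F * (h ^ 2 * p ^ 2) := by ring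
      _ = 256 * κ ^ 8 * F * (a ^ 4 * b ^ 2) := by rw [hh2]
      _ = (κ ^ 2 * a) ^ 3 * (κ ^ 2 * (b ^ 2 * a)) * F * 256 := by ring
      _ ≤ (N₁ : ℝ) ^ 3 * K₁ * F * 256 := by
          refine mul_le_mul_of_nonneg_right (mul_le_mul_of_nonneg_right ?_ (by positivity)) (by norm_num)
          exact mul_le_mul (pow_le_pow_left₀ (by positivity) n1 3) k1 (by positivity) (by positivity)
      _ = _ := by rw [hF]; ring
  have hX2 : X ≤ 81 / 16 * h ^ 2 * F := by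
    rw [hX, div_le_iff₀ (by positivity)]
    calc (N₁ : ℝ) ^ 3 * K₁ * es * (er : ℝ) ^ 2 = (N₁ : ℝ) ^ 3 * K₁ * F := by rw [hF]; ring
      _ ≤ (6 * a) ^ 3 * (6 * (b ^ 2 * a)) * F := by
          refine mul_le_mul_of_nonneg_right ?_ (by positivity)
          exact mul_le_mul (pow_le_pow_left₀ hN0.le n2 3) k2 hK0.le (by positivity)
      _ = 1296 * F * (a ^ 4 * b ^ 2) := by ring
      _ = 1296 * F * (h ^ 2 * p ^ 2) := by rw [hh2]
      _ = _ := by ring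
  have hbig : 1000 * R ^ 10 ≤ κ ^ 8 * h ^ 2 * F := by
    calc 1000 * R ^ 10 = 1000 * (k ^ 8 * κ ^ 8) * R ^ 10 * 1 * 1 := by rw [hkk 8]; ring
      _ = κ ^ 8 * ((1000 * k ^ 8) * R ^ 10 * 1) * 1 := by ring
      _ ≤ κ ^ 8 * (R ^ 2 * R ^ 10 * R) * F := by
          refine mul_le_mul (mul_le_mul_of_nonneg_left (mul_le_mul (mul_le_mul_of_nonneg_right hR2 (by positivity)) hR (by norm_num) (by positivity)) (by positivity)) hF1 (by norm_num) (by positivity)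
      _ = κ ^ 8 * R ^ 13 * F := by ring
      _ ≤ _ := by
          refine mul_le_mul_of_nonneg_right (mul_le_mul_of_nonneg_left hh13 (by positivity)) (by positivity)
  have hR10 : 1 ≤ R ^ 10 := one_le_pow₀ hR
  have hX3 : 2 ≤ X := by linarith
  set T : ℕ := ⌊X⌋₊ with hT
  have hTX : (T : ℝ) ≤ X := Nat.floor_le (by linarith)
  have hTX2 : X / 2 ≤ T := by
    have h1 : X < T + 1 := Nat.lt_floor_add_one X
    linarith
  have hTlow : κ ^ 8 * h ^ 2 * F / 512 ≤ T := by linarith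
  have hT1 : R ^ 10 ≤ T := by linarith
  have hT0 : (1 : ℝ) ≤ T := le_trans hR10 hT1
  -- L and L'
  have h6k : 6 / κ = 6 * k := by
    rw [div_eq_iff hκ.ne']
    linear_combination -6 * hk
  set L : ℕ := ⌈6 * (k * m) / E⌉₊ + 1 with hL
  set L' : ℕ := ⌈8 * (b ^ 4 * m) / E⌉₊ + 1 with hL'
  have hL1 : 6 * (k * m) + E ≤ E * L := by
    have h1 : 6 * (k * m) / E ≤ ⌈6 * (k * m) / E⌉₊ := Nat.le_ceil _
    rw [div_le_iff₀ hE0] at h1
    rw [hL]
    push_cast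
    linarith
  have hL2 : E * L ≤ 8 * (k * m) := by
    have h1 : (⌈6 * (k * m) / E⌉₊ : ℝ) < 6 * (k * m) / E + 1 := Nat.ceil_lt_add_one (by positivity)
    have h2 : (L : ℝ) ≤ 6 * (k * m) / E + 2 := by
      rw [hL]
      push_cast
      linarith
    calc E * L ≤ E * (6 * (k * m) / E + 2) := mul_le_mul_of_nonneg_left h2 hE0.le
      _ = 6 * (k * m) + 2 * E := by field_simp
      _ ≤ 8 * (k * m) := by
          have h3 : E ≤ k * m := le_trans hmE (le_mul_of_one_le_left hm0.le hk1)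
          linarith
  have hb4 : 1 ≤ b ^ 4 := one_le_pow₀ hb
  have hL1' : 8 * (b ^ 4 * m) + E ≤ E * L' := by
    have h1 : 8 * (b ^ 4 * m) / E ≤ ⌈8 * (b ^ 4 * m) / E⌉₊ := Nat.le_ceil _
    rw [div_le_iff₀ hE0] at h1
    rw [hL']
    push_cast
    linarith
  have hL2' : E * L' ≤ 10 * (b ^ 4 * m) := by
    have h1 : (⌈8 * (b ^ 4 * m) / E⌉₊ : ℝ) < 8 * (b ^ 4 * m) / E + 1 := Nat.ceil_lt_add_one (by positivity)
    have h2 : (L' : ℝ) ≤ 8 * (b ^ 4 * m) / E + 2 := by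
      rw [hL']
      push_cast
      linarith
    calc E * L' ≤ E * (8 * (b ^ 4 * m) / E + 2) := mul_le_mul_of_nonneg_left h2 hE0.le
      _ = 8 * (b ^ 4 * m) + 2 * E := by field_simp
      _ ≤ 10 * (b ^ 4 * m) := by
          have h3 : E ≤ b ^ 4 * m := le_trans hmE (le_mul_of_one_le_left hm0.le hb4)
          linarith
  obtain ⟨q1, q2, q3, q4, q5, q6, q7, q8⟩ := WNU_core κ k a b m h E F es T L L' N₁ K₁ hκ hk hk1 ha hb hm0 hh0 hE0
    (by linarith) rel hFE (by linarith) (by linarith) hL2 (by linarith) hL2' n1 n2 k1 k2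
  have hC0 : (1 : ℝ) ≤ A * k ^ 26 := one_le_mul_of_one_le_of_one_le hA (hkp 26)
  have hk9 : ∀ i ≤ 9, k ^ i ≤ k ^ 9 := fun i hi => pow_le_pow_right₀ hk1 hi
  refine ⟨L, L', T, 40000 * k ^ 9 * (h * E), ?_, hT1, ?_, ?_, ?_, ?_, ?_⟩
  · refine ⟨?_, ?_, ?_, ?_, ?_, hb, by positivity, ?_, ?_, ?_, ?_, ?_, ?_⟩
    · exact Nat.cast_pos.mp hN0
    · exact Nat.cast_pos.mp hK0
    · rw [hL]; omega
    · rw [hL']; omega
    · exact_mod_cast hT0
    · -- ρ²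
      have h1 : h ^ 2 * F ≤ 512 * k ^ 8 * T := by
        calc h ^ 2 * F = 512 * k ^ 8 * (κ ^ 8 * h ^ 2 * F / 512) := by
              have := hkk 8
              linear_combination (-(h ^ 2 * F)) * this
          _ ≤ _ := mul_le_mul_of_nonneg_left hTlow (by positivity)
      calc (40000 * k ^ 9 * (h * E)) ^ 2 = 1600000000 * k ^ 18 * h ^ 2 * E ^ 2 := by ring
        _ = 1600000000 * k ^ 18 * es * (h ^ 2 * F) := by rw [← hFE]; ring
        _ ≤ 1600000000 * k ^ 18 * es * (512 * k ^ 8 * T) := mul_le_mul_of_nonneg_left h1 (by positivity)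
        _ = 819200000000 * k ^ 26 * es * T := by ring
        _ ≤ 10 ^ 12 * A * k ^ 26 * es * T := by
            refine mul_le_mul_of_nonneg_right (mul_le_mul_of_nonneg_right ?_ (by positivity)) (by positivity)
            refine mul_le_mul_of_nonneg_right ?_ (by positivity)
            linarith
    · -- s1
      have h1 : 1620 * k ^ 6 ≤ 1620 * k ^ 9 := by linarith [hk9 6 (by norm_num)]
      have h2 : 32 * ((T : ℝ) * es) * L' / (N₁ : ℝ) ^ 3 ≤ 1620 * k ^ 9 * (h * E * b ^ 5) :=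
        le_trans q1 (mul_le_mul_of_nonneg_right h1 (by positivity))
      have h3 : (K₁ : ℝ) ^ 3 / L ≤ 36 * k ^ 9 * (h * E * b ^ 5) :=
        le_trans q2 (mul_le_mul_of_nonneg_right (by linarith [hkp 9]) (by positivity))
      have h4 : 0 ≤ k ^ 9 * (h * E * b ^ 5) := by positivity
      calc 32 * ((T : ℝ) * es) * L' / (N₁ : ℝ) ^ 3 + (K₁ : ℝ) ^ 3 / L
          ≤ 1620 * k ^ 9 * (h * E * b ^ 5) + 36 * k ^ 9 * (h * E * b ^ 5) := add_le_add h2 h3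
        _ ≤ 40000 * k ^ 9 * (h * E) * b ^ 5 := by linarith
    · -- s2
      have h1 : 1296 * k ^ 7 ≤ 1296 * k ^ 9 := by linarith [hk9 7 (by norm_num)]
      have h2 : 32 * ((T : ℝ) * es) * L / (N₁ : ℝ) ^ 3 ≤ 1296 * k ^ 9 * (h * E * b) :=
        le_trans q3 (mul_le_mul_of_nonneg_right h1 (by positivity))
      have h3 : 2 * (N₁ : ℝ) ^ 2 * K₁ / L ≤ 72 * k ^ 9 * (h * E * b) :=
        le_trans q4 (mul_le_mul_of_nonneg_right (by linarith [hkp 9]) (by positivity))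
      have h3' : (K₁ : ℝ) ^ 3 / L' ≤ 27 * k ^ 9 * (h * E * b) :=
        le_trans q5 (mul_le_mul_of_nonneg_right (by linarith [hkp 9]) (by positivity))
      have h4 : 0 ≤ k ^ 9 * (h * E * b) := by positivity
      linarith
    · -- s3
      have h1 : 1296 * k ^ 7 * (h * E * b) + 72 * (h * E * b) + 27 * (h * E * b) ≤ 1395 * k ^ 7 * (h * E * b) := by
        have h2 : 99 * (h * E * b) ≤ 99 * k ^ 7 * (h * E * b) :=
          mul_le_mul_of_nonneg_right (by linarith [hkp 7]) (by positivity)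
        linarith
      have h5 : 32 * ((T : ℝ) * es) * L / (N₁ : ℝ) ^ 3 + 2 * (N₁ : ℝ) ^ 2 * K₁ / L + (K₁ : ℝ) ^ 3 / L' ≤
          1395 * k ^ 7 * (h * E * b) := by linarith
      have h6 : 4 * (N₁ : ℝ) / K₁ * (32 * ((T : ℝ) * es) * L / (N₁ : ℝ) ^ 3 + 2 * (N₁ : ℝ) ^ 2 * K₁ / L +
          (K₁ : ℝ) ^ 3 / L') ≤ 33480 * k ^ 9 * (h * E / b) := by
        calc _ ≤ 24 * k ^ 2 / b ^ 2 * (1395 * k ^ 7 * (h * E * b)) :=
              mul_le_mul q6 h5 (by positivity) (by positivity)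
          _ = _ := by field_simp; ring
      have h7 : 5 * (N₁ : ℝ) ^ 3 / L ≤ 180 * k ^ 9 * (h * E / b) :=
        le_trans q7 (mul_le_mul_of_nonneg_right (by linarith [hkp 9]) (by positivity))
      have h8 : 40000 * k ^ 9 * (h * E) / b = 40000 * k ^ 9 * (h * E / b) := by ring
      have h4 : 0 ≤ k ^ 9 * (h * E / b) := by positivity
      rw [h8]
      linarith
    · -- s4
      have h7 : (N₁ : ℝ) ^ 3 / L' ≤ 27 * k ^ 9 * (h * E / b ^ 5) :=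
        le_trans q8 (mul_le_mul_of_nonneg_right (by linarith [hkp 9]) (by positivity))
      have h8 : 40000 * k ^ 9 * (h * E) / b ^ 5 = 40000 * k ^ 9 * (h * E / b ^ 5) := by ring
      have h4 : 0 ≤ k ^ 9 * (h * E / b ^ 5) := by positivity
      rw [h8]
      linarith
    · -- T2
      have h1 : h ^ 2 * (d : ℝ) ^ 2 ≤ A * (a ^ 2 * b ^ 2) := by
        have h2 : h ^ 2 = c ^ 2 * (a ^ 2 * b ^ 2) := by
          rw [hh, hc]; field_simp
        calc h ^ 2 * (d : ℝ) ^ 2 = (c ^ 2 * (d : ℝ) ^ 2) * (a ^ 2 * b ^ 2) := by rw [h2]; ring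
          _ ≤ _ := mul_le_mul_of_nonneg_right hapA (by positivity)
      have h3 : κ ^ 4 * (a ^ 2 * b ^ 2) ≤ (N₁ : ℝ) * K₁ := by
        calc κ ^ 4 * (a ^ 2 * b ^ 2) = (κ ^ 2 * a) * (κ ^ 2 * (b ^ 2 * a)) := by ring
          _ ≤ _ := mul_le_mul n1 k1 (by positivity) hN0.le
      calc (T : ℝ) * y ≤ (81 / 16 * h ^ 2 * F) * y := mul_le_mul_of_nonneg_right (by linarith) (by positivity)
        _ = 81 / 16 * h ^ 2 * ((er : ℝ) ^ 2 * es * y) := by rw [hF]; ring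
        _ ≤ 81 / 16 * h ^ 2 * (d : ℝ) ^ 2 := mul_le_mul_of_nonneg_left hleR (by positivity)
        _ = 81 / 16 * (h ^ 2 * (d : ℝ) ^ 2) := by ring
        _ ≤ 81 / 16 * (A * (a ^ 2 * b ^ 2)) := mul_le_mul_of_nonneg_left h1 (by norm_num)
        _ = 81 / 16 * A * k ^ 4 * (κ ^ 4 * (a ^ 2 * b ^ 2)) := by
            have := hkk 4
            linear_combination (-(81 / 16 * A * (a ^ 2 * b ^ 2))) * this
        _ ≤ 81 / 16 * A * k ^ 4 * ((N₁ : ℝ) * K₁) := mul_le_mul_of_nonneg_left h3 (by positivity)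
        _ ≤ 10 ^ 12 * A * k ^ 26 * ((N₁ : ℝ) * K₁) := by
            refine mul_le_mul_of_nonneg_right ?_ (by positivity)
            refine mul_le_mul (mul_le_mul_of_nonneg_right (by norm_num) (by linarith)) (pow_le_pow_right₀ hk1 (by norm_num)) (by positivity) (by positivity)
  · -- 32 T Y
    have h1 : (T : ℝ) * (256 * p ^ 2) ≤ (N₁ : ℝ) ^ 3 * K₁ * es * (er : ℝ) ^ 2 := by
      rw [← le_div_iff₀ (by positivity)]
      exact hTX
    linarith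
  · rw [h6k]
    linarith
  · exact hL1'
  · -- (i)
    have h1 : (N₁ : ℝ) * K₁ ≤ 36 * (a ^ 2 * b ^ 2) := by
      calc (N₁ : ℝ) * K₁ ≤ (6 * a) * (6 * (b ^ 2 * a)) := mul_le_mul n2 k2 hK0.le (by positivity)
        _ = _ := by ring
    have h2 : E ^ 2 * ((L : ℝ) * L') ≤ 80 * k * b ^ 4 * m ^ 2 := by
      calc E ^ 2 * ((L : ℝ) * L') = (E * L) * (E * L') := by ring
        _ ≤ (8 * (k * m)) * (10 * (b ^ 4 * m)) := mul_le_mul hL2 hL2' (by positivity) (by positivity)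
        _ = _ := by ring
    have hT0' : (0 : ℝ) < T := by linarith
    have key : E ^ 2 * ((N₁ : ℝ) * K₁ * (L * L')) ≤ (10 ^ 12 * A * k ^ 26) * (b ^ 4 * p ^ 4 / F) * T := by
      have h3 : 36 * (a ^ 2 * b ^ 2) * (80 * k * b ^ 4 * m ^ 2) =
          1474560 * k ^ 9 * (b ^ 4 * p ^ 4 / F) * (κ ^ 8 * h ^ 2 * F / 512) := by
        have h4 : b ^ 4 * p ^ 4 / F * (h ^ 2 * F) = b ^ 4 * p ^ 2 * (h ^ 2 * p ^ 2) := by
          field_simp
        have h5 : 1474560 * k ^ 9 * (b ^ 4 * p ^ 4 / F) * (κ ^ 8 * h ^ 2 * F / 512) =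
            2880 * k * (k ^ 8 * κ ^ 8) * (b ^ 4 * p ^ 4 / F * (h ^ 2 * F)) := by ring
        rw [h5, h4, hkk 8, hh2, hm]
        ring
      calc E ^ 2 * ((N₁ : ℝ) * K₁ * (L * L')) = ((N₁ : ℝ) * K₁) * (E ^ 2 * ((L : ℝ) * L')) := by ring
        _ ≤ 36 * (a ^ 2 * b ^ 2) * (80 * k * b ^ 4 * m ^ 2) := mul_le_mul h1 h2 (by positivity) (by positivity)
        _ = 1474560 * k ^ 9 * (b ^ 4 * p ^ 4 / F) * (κ ^ 8 * h ^ 2 * F / 512) := h3
        _ ≤ 1474560 * k ^ 9 * (b ^ 4 * p ^ 4 / F) * T := mul_le_mul_of_nonneg_left hTlow (by positivity)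
        _ ≤ _ := by
            refine mul_le_mul_of_nonneg_right (mul_le_mul_of_nonneg_right ?_ (by positivity)) (by positivity)
            refine mul_le_mul ?_ (pow_le_pow_right₀ hk1 (by norm_num)) (by positivity) (by positivity)
            linarith
    have h6 : (N₁ : ℝ) * K₁ * (L * L' / T) = (E ^ 2 * ((N₁ : ℝ) * K₁ * (L * L'))) / (E ^ 2 * T) := by
      field_simp
    have h7 : b ^ 4 * p ^ 4 / ((er : ℝ) ^ 4 * (es : ℝ) ^ 3) = (b ^ 4 * p ^ 4 / F) / E ^ 2 := by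
      have e1 : (0 : ℝ) < er := by linarith
      have e2 : (0 : ℝ) < es := by linarith
      rw [hF, hE]
      field_simp
    rw [h6, h7, div_le_iff₀ (by positivity)]
    calc _ ≤ _ := key
      _ = _ := by field_simp
  · -- (ii)
    have h1 : (N₁ : ℝ) * K₁ ≤ 36 * (a ^ 2 * b ^ 2) := by
      calc (N₁ : ℝ) * K₁ ≤ (6 * a) * (6 * (b ^ 2 * a)) := mul_le_mul n2 k2 hK0.le (by positivity)
        _ = _ := by ring
    have h2 : E ^ 2 * ((L : ℝ) * L') ≤ 80 * k * b ^ 4 * m ^ 2 := by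
      calc E ^ 2 * ((L : ℝ) * L') = (E * L) * (E * L') := by ring
        _ ≤ (8 * (k * m)) * (10 * (b ^ 4 * m)) := mul_le_mul hL2 hL2' (by positivity) (by positivity)
        _ = _ := by ring
    have h3 : √((L : ℝ) * L') ≤ 9 * k * b ^ 2 * m / E := by
      rw [Real.sqrt_le_left (by positivity)]
      have h4 : (9 * k * b ^ 2 * m / E) ^ 2 = 81 * k ^ 2 * b ^ 4 * m ^ 2 / E ^ 2 := by ring
      rw [h4, le_div_iff₀ (by positivity)]
      calc (L : ℝ) * L' * E ^ 2 = E ^ 2 * ((L : ℝ) * L') := by ring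
        _ ≤ 80 * k * b ^ 4 * m ^ 2 := h2
        _ ≤ 81 * k ^ 2 * b ^ 4 * m ^ 2 := by
            refine mul_le_mul_of_nonneg_right (mul_le_mul_of_nonneg_right ?_ (by positivity)) (by positivity)
            nlinarith
    calc (N₁ : ℝ) * K₁ * √((L : ℝ) * L') ≤ 36 * (a ^ 2 * b ^ 2) * (9 * k * b ^ 2 * m / E) :=
          mul_le_mul h1 h3 (Real.sqrt_nonneg _) (by positivity)
      _ = 324 * k * (b ^ 4 * p ^ 4 * c ^ 3 / E) := by
          rw [hm, hac]; ring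
      _ ≤ 10 ^ 12 * A * k ^ 26 * (b ^ 4 * p ^ 4 * c ^ 3 / E) := by
          refine mul_le_mul_of_nonneg_right ?_ (by positivity)
          refine mul_le_mul ?_ ?_ hk0.le (by positivity)
          · linarith
          · calc k = k ^ 1 := (pow_one k).symm
              _ ≤ k ^ 26 := pow_le_pow_right₀ hk1 (by norm_num)

theorem WNU : WNU_stmt := by
  intro B τ hτ
  obtain ⟨η, hη0, hη1, hη2⟩ : ∃ η : ℝ, 0 < η ∧ η ≤ 1 / 40 ∧ η * B ≤ τ / 4 := by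
    refine ⟨min (1 / 40) (τ / (4 * (B + 1))), lt_min (by norm_num) (by positivity), min_le_left _ _, ?_⟩
    calc min (1 / 40) (τ / (4 * (B + 1))) * B ≤ τ / (4 * (B + 1)) * B :=
          mul_le_mul_of_nonneg_right (min_le_right _ _) (Nat.cast_nonneg B)
      _ ≤ τ / 4 := by
          rw [div_mul_eq_mul_div, div_le_div_iff₀ (by positivity) (by norm_num)]
          nlinarith
  refine ⟨η, hη0, ?_⟩
  intro κ A hκ hκ1 hA
  obtain ⟨k, hk⟩ : ∃ k : ℝ, κ * k = 1 := ⟨1 / κ, by field_simp⟩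
  have hk1 : 1 ≤ k := by
    by_contra hcon
    push Not at hcon
    nlinarith
  have hC1 : (1 : ℝ) ≤ 10 ^ 12 * A * k ^ 26 := by
    have h1 : (1 : ℝ) ≤ k ^ 26 := one_le_pow₀ hk1
    have h2 : (1 : ℝ) ≤ 10 ^ 12 * A := by nlinarith
    exact one_le_mul_of_one_le_of_one_le h2 h1
  refine ⟨10 ^ 12 * A * k ^ 26, (1000 * k ^ 8) ^ 20, hC1, ?_⟩
  intro N Y Y₂ hN hYY hY2 hA2 hlow d er es y hd hdN her hes hy hle N₁ K₁ hB
  have hM : (1 : ℝ) < 1000 * k ^ 8 := by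
    have h1 : (1 : ℝ) ≤ k ^ 8 := one_le_pow₀ hk1
    linarith
  obtain ⟨R, hR, hRN, hR2, hRe⟩ := WNU_R N (1000 * k ^ 8) hM.le hN
  have hR0 : 0 < R := by linarith
  have hN1 : 1 < N := lt_of_lt_of_le (one_lt_pow₀ hM (by norm_num)) hN
  have hN0 : 0 < N := by linarith
  have hηR : N ^ η ≤ R := by
    rw [hRe]
    exact Real.rpow_le_rpow_of_exponent_le hN1.le hη1
  have hdR : (d : ℝ) ≤ R := le_trans hdN hηR
  have hd1 : (1 : ℝ) ≤ d := by exact_mod_cast hd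
  have hd0 : (0 : ℝ) < d := by linarith
  -- the product
  have hprod : R ^ 39 ≤ Y * Y₂ := by
    have h1 : N ^ (1 - η) * N ^ η = N := by
      rw [← Real.rpow_add hN0]
      simp
    have h2 : R ^ 39 * R ≤ N ^ (1 - η) * R := by
      calc R ^ 39 * R = N := by rw [← hRN]; ring
        _ = N ^ (1 - η) * N ^ η := h1.symm
        _ ≤ N ^ (1 - η) * R := mul_le_mul_of_nonneg_left hηR (by positivity)
    exact le_trans (le_of_mul_le_mul_right h2 hR0) hlow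
  have hprod0 : 0 < Y * Y₂ := lt_of_lt_of_le (by positivity) hprod
  have hY0 : 0 < Y := by
    rcases lt_trichotomy Y 0 with h1 | h1 | h1
    · exfalso
      have h5 : 1 < N ^ η := Real.one_lt_rpow hN1 hη0
      have h6 : N ^ η * Y < 1 * Y := mul_lt_mul_of_neg_right h5 h1
      linarith
    · rw [h1, zero_mul] at hprod0
      exact absurd hprod0 (lt_irrefl 0)
    · exact h1
  have hY20 : 0 < Y₂ := lt_of_lt_of_le hY0 hYY
  have hYR : R ^ 19 ≤ Y := by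
    have h1 : R * (R ^ 19) ^ 2 ≤ R * Y ^ 2 := by
      calc R * (R ^ 19) ^ 2 = R ^ 39 := by ring
        _ ≤ Y * Y₂ := hprod
        _ ≤ Y * (R * Y) := by
            refine mul_le_mul_of_nonneg_left ?_ hY0.le
            exact le_trans hY2 (mul_le_mul_of_nonneg_right hηR hY0.le)
        _ = R * Y ^ 2 := by ring
    exact (pow_le_pow_iff_left₀ (by positivity) hY0.le (by norm_num)).mp (le_of_mul_le_mul_left h1 hR0)
  -- square roots
  have hNd : 0 < N * (d : ℝ) ^ 2 := by positivity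
  obtain ⟨p, hp⟩ : ∃ p : ℝ, p = √Y := ⟨_, rfl⟩
  obtain ⟨q, hq⟩ : ∃ q : ℝ, q = √Y₂ := ⟨_, rfl⟩
  obtain ⟨e, he⟩ : ∃ e : ℝ, e = √(N * (d : ℝ) ^ 2) := ⟨_, rfl⟩
  have hp0 : 0 < p := by rw [hp]; exact Real.sqrt_pos.mpr hY0
  have hq0 : 0 < q := by rw [hq]; exact Real.sqrt_pos.mpr hY20
  have he0 : 0 < e := by rw [he]; exact Real.sqrt_pos.mpr hNd
  have hpp : p ^ 2 = Y := by rw [hp]; exact Real.sq_sqrt hY0.le
  have hqq : q ^ 2 = Y₂ := by rw [hq]; exact Real.sq_sqrt hY20.le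
  have hee : e ^ 2 = N * (d : ℝ) ^ 2 := by rw [he]; exact Real.sq_sqrt hNd.le
  have hpq : p ≤ q := by rw [hp, hq]; exact Real.sqrt_le_sqrt hYY
  obtain ⟨b, hb⟩ : ∃ b : ℝ, b = √(q / p) := ⟨_, rfl⟩
  have hb2 : b ^ 2 = q / p := by rw [hb]; exact Real.sq_sqrt (by positivity)
  have hb1 : 1 ≤ b := by
    rw [hb, Real.one_le_sqrt, one_le_div hp0]
    exact hpq
  have hb4 : b ^ 4 = Y₂ / Y := by
    rw [← hpp, ← hqq]
    calc b ^ 4 = (b ^ 2) ^ 2 := by ring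
      _ = _ := by rw [hb2]; ring
  obtain ⟨a, ha⟩ : ∃ a : ℝ, a = p ^ 2 * q / e := ⟨_, rfl⟩
  have ha0 : 0 < a := by rw [ha]; positivity
  have hsN : sN (N * (d : ℝ) ^ 2) Y Y₂ = a := by
    unfold sN
    rw [← hq, ← he, ha, hpp]
  have hsK : sK (N * (d : ℝ) ^ 2) Y Y₂ = b ^ 2 * a := by
    unfold sK
    rw [← hp, ← he, ha, hb2, ← hqq]
    field_simp
  have hsM : sM (N * (d : ℝ) ^ 2) Y Y₂ = p * a := by
    unfold sM
    rw [← hp, ← hq, ← he, ha, ← hpp]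
    ring
  have hsG : sG (N * (d : ℝ) ^ 2) Y Y₂ = b ^ 4 * (p * a) := by
    unfold sG
    rw [← hp, ← hq, ← he, ha, hb4, ← hpp, ← hqq]
    field_simp
  have hap2 : (a / p) ^ 2 = Y * Y₂ / (N * (d : ℝ) ^ 2) := by
    rw [← hee, ← hpp, ← hqq, ha]
    field_simp
  have hap : 1 ≤ R ^ 3 * (a / p) ^ 2 := by
    rw [hap2, ← mul_div_assoc, one_le_div hNd]
    calc N * (d : ℝ) ^ 2 ≤ R ^ 40 * R ^ 2 := by
          rw [← hRN]
          exact mul_le_mul_of_nonneg_left (pow_le_pow_left₀ hd0.le hdR 2) (by positivity)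
      _ = R ^ 3 * R ^ 39 := by ring
      _ ≤ _ := mul_le_mul_of_nonneg_left hprod (by positivity)
  have hapA : (a / p) ^ 2 * (d : ℝ) ^ 2 ≤ A := by
    rw [hap2, div_mul_eq_mul_div, div_le_iff₀ hNd]
    calc Y * Y₂ * (d : ℝ) ^ 2 ≤ (A * N) * (d : ℝ) ^ 2 := mul_le_mul_of_nonneg_right hA2 (by positivity)
      _ = _ := by ring
  have n1 := hB.n1
  have n2 := hB.n2
  have k1 := hB.k1
  have k2 := hB.k2
  rw [hsN] at n1 n2
  rw [hsK] at k1 k2
  obtain ⟨hf, L, L', T, ρ, hWB, hT, h1, h2, h3, h4, h5⟩ := WNU_fin κ k A R p a b hκ hk hk1 hA hR hR2 hp0 ha0 hb1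
    (by rw [hpp]; exact hYR) hap d er es y hd hdR her hes hy hle hapA N₁ K₁ n1 n2 k1 k2
  have hT1 : (1 : ℝ) ≤ T := le_trans (one_le_pow₀ hR) hT
  have hbB : b ^ B ≤ (T : ℝ) ^ τ := by
    have g1 : b ≤ N ^ η := by
      calc b = b ^ 1 := (pow_one b).symm
        _ ≤ b ^ 4 := pow_le_pow_right₀ hb1 (by norm_num)
        _ ≤ N ^ η := by rw [hb4, div_le_iff₀ hY0]; exact hY2
    calc b ^ B ≤ (N ^ η) ^ B := pow_le_pow_left₀ (by linarith) g1 B
      _ = N ^ (η * B) := by rw [Real.rpow_mul hN0.le, Real.rpow_natCast]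
      _ ≤ N ^ (τ / 4) := Real.rpow_le_rpow_of_exponent_le hN1.le hη2
      _ = (R ^ 10) ^ τ := by
          rw [hRe, ← Real.rpow_natCast, ← Real.rpow_mul hN0.le, ← Real.rpow_mul hN0.le]
          congr 1
          push_cast
          ring
      _ ≤ (T : ℝ) ^ τ := Real.rpow_le_rpow (by positivity) hT hτ.le
  have hYY4 : b ^ 4 * p ^ 4 = Y * Y₂ := by
    rw [hb4, ← hpp, ← hqq]
    field_simp
  have hc3 : (a / p) ^ 3 = (Y * Y₂ / (N * (d : ℝ) ^ 2)) ^ (3 / 2 : ℝ) := by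
    rw [← hap2, ← Real.rpow_natCast, ← Real.rpow_natCast, ← Real.rpow_mul (by positivity)]
    norm_num
  have hY1 : 1 ≤ Y := le_trans (one_le_pow₀ hR) hYR
  rw [hsN, hsK, hsM, hsG]
  refine ⟨hf, ?_, hY1, le_trans hY1 hYY, hN1.le, L, L', T, b, ρ, hWB, hbB, ?_, h2, h3, ?_, ?_⟩
  · refine le_trans hf (mul_le_mul_of_nonneg_left ?_ (by positivity))
    exact le_mul_of_one_le_left ha0.le (one_le_pow₀ hb1)
  · rw [← hpp]
    exact h1
  · rw [← hYY4]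
    exact h4
  · rw [← hc3, ← hYY4]
    exact h5

end Pool.Agent.T6
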