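import Pool.Agent.helper82.T6.SpecL

set_option autoImplicit false

namespace Pool.Agent.T6

open Finset Pool.Agent.helper3.FT

theorem Z1 : Z1_stmt := by
  rintro n k ⟨A, A', B, X⟩ hc hn hk ⟨h1, h2⟩
  simp only [F1, F2] at h1 h2
  have hnB : n ∣ B := by
    have h3 : n ∣ B * k ^ 3 := ⟨-(5 * A * n ^ 2 - 2 * A' * k ^ 2), by linear_combination h1⟩
    exact (IsCoprime.pow_right hc).dvd_of_dvd_mul_right h3
  obtain ⟨B₁, rfl⟩ := hnB
  have hkA : k ∣ A' := by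
    have h3 : k ∣ A' * n ^ 3 := ⟨-(2 * (n * B₁) * n ^ 2 - 5 * X * k ^ 2), by linear_combination h2⟩
    exact (IsCoprime.pow_right hc.symm).dvd_of_dvd_mul_right h3
  obtain ⟨A₁, rfl⟩ := hkA
  have h3 : 5 * A * n ^ 2 = k ^ 3 * (2 * A₁ - B₁) := by
    have h4 : n * (5 * A * n ^ 2) = n * (k ^ 3 * (2 * A₁ - B₁)) := by linear_combination h1
    exact mul_left_cancel₀ hn h4
  have h4 : 5 * X * k ^ 2 = n ^ 3 * (A₁ + 2 * B₁) := by
    have h5 : k * (5 * X * k ^ 2) = k * (n ^ 3 * (A₁ + 2 * B₁)) := by linear_combination -h2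
    exact mul_left_cancel₀ hk h5
  have h5 : k ^ 3 ∣ 5 * A := by
    have h6 : k ^ 3 ∣ 5 * A * n ^ 2 := ⟨_, h3⟩
    exact (IsCoprime.pow hc.symm).dvd_of_dvd_mul_right h6
  have h6 : n ^ 3 ∣ 5 * X := by
    have h7 : n ^ 3 ∣ 5 * X * k ^ 2 := ⟨_, h4⟩
    exact (IsCoprime.pow hc).dvd_of_dvd_mul_right h7
  obtain ⟨a', ha'⟩ := h5
  obtain ⟨x', hx'⟩ := h6
  have hk3 : k ^ 3 ≠ 0 := pow_ne_zero 3 hk
  have hn3 : n ^ 3 ≠ 0 := pow_ne_zero 3 hn
  have h7 : 2 * A₁ - B₁ = n ^ 2 * a' := by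
    have h8 : k ^ 3 * (2 * A₁ - B₁) = k ^ 3 * (n ^ 2 * a') := by
      linear_combination -h3 + n ^ 2 * ha'
    exact mul_left_cancel₀ hk3 h8
  have h8 : A₁ + 2 * B₁ = k ^ 2 * x' := by
    have h9 : n ^ 3 * (A₁ + 2 * B₁) = n ^ 3 * (k ^ 2 * x') := by
      linear_combination -h4 + k ^ 2 * hx'
    exact mul_left_cancel₀ hn3 h9
  have h9 : 5 * A₁ = 2 * n ^ 2 * a' + k ^ 2 * x' := by linear_combination 2 * h7 + h8
  have p5 : Prime (5 : ℤ) := by
    rw [Int.prime_iff_natAbs_prime]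
    norm_num
  have key : (5 : ℤ) ∣ a' ∧ (5 : ℤ) ∣ x' := by
    by_cases h5k : (5 : ℤ) ∣ k
    · have h5n : ¬ (5 : ℤ) ∣ n := by
        intro h5n
        exact p5.not_isUnit (hc.isUnit_of_dvd' h5n h5k)
      have hx : (5 : ℤ) ∣ x' := by
        have h10 : (5 : ℤ) ∣ n ^ 3 * x' := ⟨X, hx'.symm⟩
        rcases p5.dvd_or_dvd h10 with h11 | h11
        · exact absurd (p5.dvd_of_dvd_pow h11) h5n
        · exact h11
      refine ⟨?_, hx⟩
      have h10 : (5 : ℤ) ∣ 2 * n ^ 2 * a' := by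
        have h11 : 2 * n ^ 2 * a' = 5 * A₁ - k ^ 2 * x' := by linear_combination -h9
        rw [h11]
        exact dvd_sub (dvd_mul_right 5 A₁) (Dvd.dvd.mul_left hx _)
      rcases p5.dvd_or_dvd h10 with h11 | h11
      · rcases p5.dvd_or_dvd h11 with h12 | h12
        · exact absurd h12 (by norm_num)
        · exact absurd (p5.dvd_of_dvd_pow h12) h5n
      · exact h11
    · have ha : (5 : ℤ) ∣ a' := by
        have h10 : (5 : ℤ) ∣ k ^ 3 * a' := ⟨A, ha'.symm⟩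
        rcases p5.dvd_or_dvd h10 with h11 | h11
        · exact absurd (p5.dvd_of_dvd_pow h11) h5k
        · exact h11
      refine ⟨ha, ?_⟩
      have h10 : (5 : ℤ) ∣ k ^ 2 * x' := by
        have h11 : k ^ 2 * x' = 5 * A₁ - 2 * n ^ 2 * a' := by linear_combination -h9
        rw [h11]
        exact dvd_sub (dvd_mul_right 5 A₁) (Dvd.dvd.mul_left ha _)
      rcases p5.dvd_or_dvd h10 with h11 | h11
      · exact absurd (p5.dvd_of_dvd_pow h11) h5k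
      · exact h11
  obtain ⟨⟨a, rfl⟩, ⟨x, rfl⟩⟩ := key
  have hA : A = k ^ 3 * a := by linarith
  have hX : X = n ^ 3 * x := by linarith
  have hA₁ : A₁ = x * k ^ 2 + 2 * a * n ^ 2 := by linarith
  have hB₁ : B₁ = 2 * x * k ^ 2 - a * n ^ 2 := by linarith
  refine ⟨a, x, ?_⟩
  rw [hA, hX, hA₁, hB₁]

end Pool.Agent.T6
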